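import Pool.Agent.P.MP_bb8083_al.Cover

set_option autoImplicit false
open scoped Pointwise

namespace Pool.Agent.Results.MP_bb8083_al.Linear

/-- For every cover of a group by `n` sets there is a cell `A` and a subgroup `H` of finite index
at most `n` such that every power of `A * A⁻¹` with exponent at least `min (4 ^ (n - 1)) (5 * n - 1)`
equals `H`. -/
theorem result (G : Type*) [Group G] (n : ℕ) (A : Fin n → Set G) (hA : (⋃ i, A i) = Set.univ) :
    ∃ i : Fin n, ∃ H : Subgroup G, H.index ≠ 0 ∧ H.index ≤ n ∧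
      ∀ N : ℕ, min (4 ^ (n - 1)) (5 * n - 1) ≤ N → ((A i * (A i)⁻¹) ^ N : Set G) = (H : Set G) := by
  have main : ∃ i : Fin n, ∃ H : Subgroup G,
      ((A i * (A i)⁻¹) ^ (min (4 ^ (n - 1)) (5 * n - 1)) : Set G) = (H : Set G) ∧
        H.index ≠ 0 ∧ H.index ≤ n := by
    rcases le_total (4 ^ (n - 1)) (5 * n - 1) with h | h
    · rw [min_eq_left h]
      exact Pool.Agent.P.MP_bb8083_al.main n A hA
    · rw [min_eq_right h]
      exact Pool.Agent.P.MP_bb8083_al.linear A hA _ (by omega)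
  obtain ⟨i, H, hH, h0, hn⟩ := main
  refine ⟨i, H, h0, hn, ?_⟩
  have hnpos : 0 < n := Nat.pos_of_ne_zero (by rintro rfl; exact i.elim0)
  obtain ⟨M, hM⟩ : ∃ M, min (4 ^ (n - 1)) (5 * n - 1) = M + 1 := by
    refine ⟨min (4 ^ (n - 1)) (5 * n - 1) - 1, ?_⟩
    have h1 : 0 < 4 ^ (n - 1) := by positivity
    have h2 : 0 < 5 * n - 1 := by omega
    have := lt_min h1 h2
    omega
  rw [hM] at hH ⊢
  have hne : (A i).Nonempty := by
    have h1 : (1 : G) ∈ (A i * (A i)⁻¹) ^ (M + 1) := by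
      rw [hH]
      exact H.one_mem
    rw [pow_succ] at h1
    obtain ⟨-, -, z, ⟨a, ha, -⟩, -⟩ := h1
    exact ⟨a, ha⟩
  have h1 := Pool.Agent.P.MP_bb8083_al.one_mem_diff hne
  have hBH : A i * (A i)⁻¹ ⊆ (H : Set G) := by
    rw [← hH]
    calc A i * (A i)⁻¹ = (A i * (A i)⁻¹) ^ 1 := (pow_one _).symm
      _ ⊆ (A i * (A i)⁻¹) ^ (M + 1) := Set.pow_subset_pow_right h1 (by omega)
  intro N hN
  apply Set.Subset.antisymm
  · clear hN
    induction N with
    | zero =>
      intro x hx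
      rw [pow_zero, Set.mem_one] at hx
      rw [hx]
      exact H.one_mem
    | succ N ih =>
      rw [pow_succ]
      rintro x ⟨y, hy, z, hz, rfl⟩
      exact H.mul_mem (ih hy) (hBH hz)
  · rw [← hH]
    exact Set.pow_subset_pow_right h1 hN

end Pool.Agent.Results.MP_bb8083_al.Linear
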